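import Mathlib

/-!
Banach-Ulam project: multiset lemma (helper844).
A continuous even function is a limit of normalised sums of `d` cosines of integer frequencies,
away from the zeros of `sin (2 pi x)`.
-/

set_option autoImplicit false

namespace H844BU

open Finset Real

/-- weights of the Fejer kernel -/
noncomputable def w (n : ℕ) : ℝ := if n = 0 then 1 else 2

lemma w_zero : w 0 = 1 := by simp [w]

lemma w_succ (n : ℕ) : w (n + 1) = 2 := by simp [w]

lemma dirichlet (θ : ℝ) (h : ℕ) :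
    (1 - cos θ) * ∑ n ∈ range (h + 1), w n * cos ((n : ℝ) * θ)
      = cos ((h : ℝ) * θ) - cos (((h + 1 : ℕ) : ℝ) * θ) := by
  induction h with
  | zero => simp [w]
  | succ h ih =>
    rw [sum_range_succ, mul_add, ih, w_succ]
    set x : ℝ := ((h + 1 : ℕ) : ℝ) * θ with hx
    have e1 : (h : ℝ) * θ = x - θ := by rw [hx]; push_cast; ring
    have e2 : (((h + 1 + 1 : ℕ) : ℝ)) * θ = x + θ := by rw [hx]; push_cast; ring
    rw [e1, e2, cos_sub, cos_add]
    ring

lemma fejer (θ : ℝ) (h : ℕ) :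
    (1 - cos θ) * ∑ n ∈ range h, w n * ((h : ℝ) - n) * cos ((n : ℝ) * θ)
      = 1 - cos ((h : ℝ) * θ) := by
  induction h with
  | zero => simp
  | succ h ih =>
    have e : ∑ n ∈ range (h + 1), w n * (((h + 1 : ℕ) : ℝ) - n) * cos ((n : ℝ) * θ)
        = ∑ n ∈ range h, w n * ((h : ℝ) - n) * cos ((n : ℝ) * θ)
          + ∑ n ∈ range (h + 1), w n * cos ((n : ℝ) * θ) := by
      have e0 : ∑ n ∈ range h, w n * ((h : ℝ) - n) * cos ((n : ℝ) * θ)
          = ∑ n ∈ range (h + 1), w n * ((h : ℝ) - n) * cos ((n : ℝ) * θ) := by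
        rw [sum_range_succ]
        simp
      rw [e0, ← sum_add_distrib]
      apply sum_congr rfl
      intro n _
      push_cast
      ring
    rw [e, mul_add, ih, dirichlet]
    ring

lemma sum_w (h : ℕ) : ∑ n ∈ range h, w n * ((h : ℝ) - n) = (h : ℝ) ^ 2 := by
  have hd : ∀ h : ℕ, ∑ n ∈ range (h + 1), w n = 2 * h + 1 := by
    intro h
    induction h with
    | zero => simp [w]
    | succ h ih => rw [sum_range_succ, ih, w_succ]; push_cast; ring
  induction h with
  | zero => simp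
  | succ h ih =>
    have e : ∑ n ∈ range (h + 1), w n * (((h + 1 : ℕ) : ℝ) - n)
        = ∑ n ∈ range h, w n * ((h : ℝ) - n) + ∑ n ∈ range (h + 1), w n := by
      have e0 : ∑ n ∈ range h, w n * ((h : ℝ) - n)
          = ∑ n ∈ range (h + 1), w n * ((h : ℝ) - n) := by
        rw [sum_range_succ]
        simp
      rw [e0, ← sum_add_distrib]
      apply sum_congr rfl
      intro n _
      push_cast
      ring
    rw [e, ih, hd]
    push_cast
    ring

lemma fejer_bound (θ c : ℝ) (hc : 0 < c) (h : ℕ) (hθ : c ≤ 1 - cos θ) :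
    |∑ n ∈ range h, w n * ((h : ℝ) - n) * cos ((n : ℝ) * θ)| ≤ 2 / c := by
  have h1 := fejer θ h
  have h2 : (1 - cos θ) * |∑ n ∈ range h, w n * ((h : ℝ) - n) * cos ((n : ℝ) * θ)| ≤ 2 := by
    have h3 : |(1 - cos θ) * ∑ n ∈ range h, w n * ((h : ℝ) - n) * cos ((n : ℝ) * θ)| ≤ 2 := by
      rw [h1, abs_le]
      have := cos_le_one ((h : ℝ) * θ)
      have := neg_one_le_cos ((h : ℝ) * θ)
      constructor <;> linarith
    rwa [abs_mul, abs_of_nonneg (by linarith)] at h3
  rw [le_div_iff₀ hc]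
  nlinarith [abs_nonneg (∑ n ∈ range h, w n * ((h : ℝ) - n) * cos ((n : ℝ) * θ))]

/-! ### approximation by cosine polynomials -/

/-- the span of the cosines -/
noncomputable def CS : Submodule ℝ (ℝ → ℝ) :=
  Submodule.span ℝ (Set.range (fun (n : ℕ) (θ : ℝ) => cos ((n : ℝ) * θ)))

lemma mem_CS (n : ℕ) : (fun θ : ℝ => cos ((n : ℝ) * θ)) ∈ CS :=
  Submodule.subset_span ⟨n, rfl⟩

lemma CS_mul_cos {f : ℝ → ℝ} (hf : f ∈ CS) : (fun θ => f θ * cos θ) ∈ CS := by
  induction hf using Submodule.span_induction with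
  | mem f hf =>
    obtain ⟨n, rfl⟩ := hf
    rcases n with _ | n
    · have := mem_CS 1
      have e : (fun θ : ℝ => (fun (n : ℕ) (θ : ℝ) => cos ((n : ℝ) * θ)) 0 θ * cos θ)
          = fun θ : ℝ => cos (((1 : ℕ) : ℝ) * θ) := by
        funext θ
        simp
      rw [e]
      exact this
    · have e : (fun θ : ℝ => (fun (n : ℕ) (θ : ℝ) => cos ((n : ℝ) * θ)) (n + 1) θ * cos θ)
          = (1 / 2 : ℝ) • ((fun θ : ℝ => cos (((n + 2 : ℕ) : ℝ) * θ))
            + (fun θ : ℝ => cos ((n : ℝ) * θ))) := by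
        funext θ
        simp only [Pi.smul_apply, Pi.add_apply, smul_eq_mul]
        set x : ℝ := ((n + 1 : ℕ) : ℝ) * θ with hx
        have e1 : (n : ℝ) * θ = x - θ := by rw [hx]; push_cast; ring
        have e2 : (((n + 2 : ℕ) : ℝ)) * θ = x + θ := by rw [hx]; push_cast; ring
        rw [e1, e2, cos_sub, cos_add]
        ring
      rw [e]
      exact CS.smul_mem _ (CS.add_mem (mem_CS _) (mem_CS _))
  | zero =>
    have e : (fun θ : ℝ => (0 : ℝ → ℝ) θ * cos θ) = 0 := by
      funext θ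
      simp
    rw [e]
    exact CS.zero_mem
  | add f g _ _ h1 h2 =>
    have e : (fun θ : ℝ => (f + g) θ * cos θ)
        = (fun θ => f θ * cos θ) + fun θ => g θ * cos θ := by
      funext θ
      simp only [Pi.add_apply]
      ring
    rw [e]
    exact CS.add_mem h1 h2
  | smul a f _ h1 =>
    have e : (fun θ : ℝ => (a • f) θ * cos θ) = a • fun θ => f θ * cos θ := by
      funext θ
      simp only [Pi.smul_apply, smul_eq_mul]
      ring
    rw [e]
    exact CS.smul_mem _ h1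

lemma CS_poly (p : Polynomial ℝ) : (fun θ => p.eval (cos θ)) ∈ CS := by
  induction p using Polynomial.induction_on with
  | C a =>
    have e : (fun θ => (Polynomial.C a).eval (cos θ)) = a • fun θ : ℝ => cos (((0 : ℕ) : ℝ) * θ) := by
      funext θ
      simp
    rw [e]
    exact CS.smul_mem _ (mem_CS 0)
  | add p q h1 h2 =>
    have e : (fun θ => (p + q).eval (cos θ))
        = (fun θ => p.eval (cos θ)) + fun θ => q.eval (cos θ) := by
      funext θ
      simp
    rw [e]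
    exact CS.add_mem h1 h2
  | monomial n a h =>
    have e : (fun θ => (Polynomial.C a * Polynomial.X ^ (n + 1)).eval (cos θ))
        = fun θ => (fun θ => (Polynomial.C a * Polynomial.X ^ n).eval (cos θ)) θ * cos θ := by
      funext θ
      simp only [Polynomial.eval_mul, Polynomial.eval_C, Polynomial.eval_pow, Polynomial.eval_X]
      ring
    rw [e]
    exact CS_mul_cos h

lemma exists_coeff {f : ℝ → ℝ} (hf : f ∈ CS) : ∃ (N : ℕ) (a : ℕ → ℝ), (∀ n, N ≤ n → a n = 0) ∧
    ∀ θ, f θ - f 0 = ∑ n ∈ range N, a n * (cos (((n + 1 : ℕ) : ℝ) * θ) - 1) := by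
  rw [CS, Finsupp.mem_span_range_iff_exists_finsupp] at hf
  obtain ⟨c, hc⟩ := hf
  obtain ⟨N, hN⟩ : ∃ N : ℕ, ∀ n ∈ c.support, n < N + 1 := by
    refine ⟨c.support.sup id, fun n hn => Nat.lt_succ_of_le (Finset.le_sup (f := id) hn)⟩
  have hval : ∀ θ, f θ = ∑ n ∈ range (N + 1), c n * cos ((n : ℝ) * θ) := by
    intro θ
    rw [← hc, Finsupp.sum]
    rw [Finset.sum_apply]
    simp only [Pi.smul_apply, smul_eq_mul]
    apply Finset.sum_subset
    · intro n hn
      exact mem_range.mpr (hN n hn)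
    · intro n _ hn
      rw [Finsupp.notMem_support_iff.mp hn, zero_mul]
  refine ⟨N, fun n => c (n + 1), ?_, ?_⟩
  · intro n hn
    by_contra h
    have := hN (n + 1) (Finsupp.mem_support_iff.mpr h)
    omega
  · intro θ
    rw [hval θ, hval 0, ← sum_sub_distrib, sum_range_succ']
    simp only [Nat.cast_zero, zero_mul, mul_zero, cos_zero, mul_one, sub_self, add_zero]
    apply sum_congr rfl
    intro n _
    ring

lemma exists_approx (z : ℝ → ℝ) (hc : Continuous z) (he : ∀ x, z (-x) = z x)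
    (hp : ∀ x, z (x + 1) = z x) (hz : z 0 = 0) (ε : ℝ) (hε : 0 < ε) :
    ∃ (N : ℕ) (a : ℕ → ℝ), (∀ n, N ≤ n → a n = 0) ∧
      ∀ x, |∑ n ∈ range N, a n * (cos (((n + 1 : ℕ) : ℝ) * (2 * π * x)) - 1) - z x| ≤ ε := by
  have hg : ContinuousOn (fun y => z (arccos y / (2 * π))) (Set.Icc (-1) 1) :=
    (hc.comp (continuous_arccos.div_const _)).continuousOn
  obtain ⟨p, hpol⟩ := exists_polynomial_near_of_continuousOn (-1) 1 _ hg (ε / 2) (by positivity)
  have hper : ∀ (k : ℤ) (x : ℝ), z (x + k) = z x := by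
    have hP : Function.Periodic z 1 := hp
    intro k x
    have := (hP.int_mul k) x
    simpa using this
  have hzcos : ∀ x, z (arccos (cos (2 * π * x)) / (2 * π)) = z x := by
    intro x
    have h1 : cos (arccos (cos (2 * π * x))) = cos (2 * π * x) :=
      cos_arccos (neg_one_le_cos _) (cos_le_one _)
    rw [cos_eq_cos_iff] at h1
    obtain ⟨k, hk | hk⟩ := h1
    · have e : arccos (cos (2 * π * x)) / (2 * π) = x + ((-k : ℤ) : ℝ) := by
        push_cast
        field_simp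
        linarith
      rw [e, hper]
    · have e : arccos (cos (2 * π * x)) / (2 * π) = -(x + ((-k : ℤ) : ℝ)) := by
        push_cast
        field_simp
        linarith
      rw [e, he, hper]
  obtain ⟨N, a, ha, hsum⟩ := exists_coeff (CS_poly p)
  refine ⟨N, a, ha, fun x => ?_⟩
  rw [← hsum (2 * π * x)]
  have h1 := hpol (cos (2 * π * x)) ⟨neg_one_le_cos _, cos_le_one _⟩
  have h0 := hpol (cos (2 * π * 0)) ⟨neg_one_le_cos _, cos_le_one _⟩
  simp only [hzcos] at h1 h0
  rw [hz, mul_zero] at h0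
  rw [abs_lt] at h1 h0
  rw [abs_le]
  constructor <;> linarith [h1.1, h1.2, h0.1, h0.2]

/-! ### realising a family of integer multiplicities -/

lemma exists_list (h d : ℕ) (c : ℕ → ℕ) (hc : ∑ n ∈ range h, c n = d) :
    ∃ β : Fin d → ℕ, ∀ φ : ℕ → ℝ, ∑ j, φ (β j) = ∑ n ∈ range h, (c n : ℝ) * φ n := by
  have hcard : Fintype.card (Σ n : Fin h, Fin (c n)) = d := by
    rw [Fintype.card_sigma]
    simp only [Fintype.card_fin]
    rw [← hc, Finset.sum_range]
  let e := Fintype.equivFinOfCardEq hcard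
  refine ⟨fun j => ((e.symm j).1 : ℕ), fun φ => ?_⟩
  rw [Equiv.sum_comp e.symm (fun σ : (Σ n : Fin h, Fin (c n)) => φ (σ.1 : ℕ))]
  rw [Fintype.sum_sigma, Finset.sum_range]
  apply Finset.sum_congr rfl
  intro n _
  simp

/-! ### the main construction -/

lemma one_sub_cos_ge {δ x : ℝ} (hδ : 0 < δ) (hx : δ ≤ |sin (2 * π * x)|) :
    δ ^ 2 / 2 ≤ 1 - cos (2 * π * x) := by
  have h1 : δ ^ 2 ≤ sin (2 * π * x) ^ 2 := by
    rw [← sq_abs (sin (2 * π * x))]
    exact pow_le_pow_left₀ hδ.le hx 2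
  have h2 := sin_sq_add_cos_sq (2 * π * x)
  have h3 := cos_le_one (2 * π * x)
  have h4 := neg_one_le_cos (2 * π * x)
  nlinarith

lemma one_sub_cos_two_ge {δ x : ℝ} (hδ : 0 < δ) (hx : δ ≤ |sin (2 * π * x)|) :
    2 * δ ^ 2 ≤ 1 - cos (2 * (2 * π * x)) := by
  have h1 : δ ^ 2 ≤ sin (2 * π * x) ^ 2 := by
    rw [← sq_abs (sin (2 * π * x))]
    exact pow_le_pow_left₀ hδ.le hx 2
  have h2 := sin_sq_add_cos_sq (2 * π * x)
  rw [cos_two_mul]
  nlinarith

/-- The multiset lemma for prescribed coefficients. -/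
lemma multi_coeff (N s h : ℕ) (a : ℕ → ℝ) (A : ℝ) (hA : ∑ n ∈ range N, |a n| ≤ A)
    (hs : A + 1 ≤ s) (hN : N + 1 ≤ h) (h2N : 2 * N ≤ h) (hNs : (N : ℝ) + 1 ≤ (h : ℝ) * s) :
    ∃ (β : Fin ((s * h) ^ 2) → ℕ) (r : ℕ → ℤ),
      (∀ n, |(r n : ℝ) - h * s * a n| ≤ 1) ∧
      ∀ θ : ℝ, ∑ j, cos ((β j : ℝ) * θ)
        = (s : ℝ) ^ 2 * (∑ n ∈ range h, w n * ((h : ℝ) - n) * cos ((n : ℝ) * θ))
          + ∑ n ∈ range N, (r n : ℝ) * (cos (((n + 1 : ℕ) : ℝ) * θ) - 1) := by
  set r : ℕ → ℤ := fun n => ⌊(h : ℝ) * s * a n⌋ with hr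
  have hr1 : ∀ n, |(r n : ℝ) - h * s * a n| ≤ 1 := by
    intro n
    have h1 := Int.floor_le ((h : ℝ) * s * a n)
    have h2 := Int.lt_floor_add_one ((h : ℝ) * s * a n)
    rw [abs_le]
    constructor <;> simp only [hr] <;> linarith
  have hA0 : 0 ≤ A := le_trans (sum_nonneg fun n _ => abs_nonneg _) hA
  have hhs : (0 : ℝ) ≤ (h : ℝ) * s := by positivity
  have hrabs : ∀ n, |(r n : ℝ)| ≤ h * s * |a n| + 1 := by
    intro n
    have h1 := hr1 n
    have h2 : |(r n : ℝ)| ≤ |(r n : ℝ) - h * s * a n| + |(h : ℝ) * s * a n| := by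
      have := abs_add_le ((r n : ℝ) - h * s * a n) (h * s * a n)
      simpa using this
    rw [abs_mul, abs_of_nonneg hhs] at h2
    linarith
  have hrsum : ∑ n ∈ range N, (r n : ℝ) ≤ h * s * A + N := by
    calc ∑ n ∈ range N, (r n : ℝ) ≤ ∑ n ∈ range N, (h * s * |a n| + 1) :=
          sum_le_sum fun n _ => le_trans (le_abs_self _) (hrabs n)
      _ = h * s * ∑ n ∈ range N, |a n| + N := by
          rw [sum_add_distrib, ← mul_sum]
          simp
      _ ≤ h * s * A + N := by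
          have := mul_le_mul_of_nonneg_left hA hhs
          linarith
  have ha_le : ∀ n, n < N → |a n| ≤ A := by
    intro n hn
    exact le_trans (single_le_sum (f := fun n => |a n|) (fun i _ => abs_nonneg _)
      (mem_range.mpr hn)) hA
  -- integer multiplicities
  set cz : ℕ → ℤ := fun k => match k with
    | 0 => (s : ℤ) ^ 2 * h - ∑ n ∈ range N, r n
    | k + 1 => 2 * (s : ℤ) ^ 2 * ((h : ℤ) - (k + 1)) + (if k < N then r k else 0) with hcz
  have hcz0 : 0 ≤ cz 0 := by
    have : (0 : ℝ) ≤ ((cz 0 : ℤ) : ℝ) := by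
      simp only [hcz]
      push_cast
      have e : (s : ℝ) ^ 2 * h = (h : ℝ) * s * s := by ring
      rw [e]
      have := mul_le_mul_of_nonneg_left hs hhs
      nlinarith
    exact_mod_cast this
  have hcz1 : ∀ k, k + 1 < h → 0 ≤ cz (k + 1) := by
    intro k hk
    have : (0 : ℝ) ≤ ((cz (k + 1) : ℤ) : ℝ) := by
      simp only [hcz]
      push_cast
      have hk' : (k : ℝ) + 1 ≤ h := by exact_mod_cast hk.le
      by_cases hkN : k < N
      · rw [if_pos hkN]
        have h1 := hrabs k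
        have h2 := ha_le k hkN
        have h3 : -(h * s * A + 1) ≤ (r k : ℝ) := by
          have := neg_abs_le (r k : ℝ)
          have := mul_le_mul_of_nonneg_left h2 hhs
          linarith
        have h4 : (h : ℝ) ≤ 2 * ((h : ℝ) - (k + 1)) := by
          have : (2 : ℝ) * N ≤ h := by exact_mod_cast h2N
          have : (k : ℝ) + 1 ≤ N := by exact_mod_cast hkN
          linarith
        have h5 : (s : ℝ) ^ 2 * h ≤ 2 * (s : ℝ) ^ 2 * ((h : ℝ) - (k + 1)) := by
          have := mul_le_mul_of_nonneg_left h4 (sq_nonneg (s : ℝ))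
          nlinarith
        have h6 := mul_le_mul_of_nonneg_left hs hhs
        have hN0 : (0 : ℝ) ≤ N := Nat.cast_nonneg _
        nlinarith
      · rw [if_neg hkN]
        have : 0 ≤ (s : ℝ) ^ 2 := sq_nonneg _
        have : 0 ≤ (h : ℝ) - (k + 1) := by linarith
        push_cast
        positivity
    exact_mod_cast this
  have hcznn : ∀ k, k < h → 0 ≤ cz k := by
    intro k hk
    rcases k with _ | k
    · exact hcz0
    · exact hcz1 k hk
  set c : ℕ → ℕ := fun k => (cz k).toNat with hcdef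
  have hcast : ∀ k, k < h → ((c k : ℕ) : ℝ) = ((cz k : ℤ) : ℝ) := by
    intro k hk
    have : ((c k : ℕ) : ℤ) = cz k := Int.toNat_of_nonneg (hcznn k hk)
    exact_mod_cast this
  -- the general summation formula
  have hformula : ∀ φ : ℕ → ℝ, ∑ k ∈ range h, (c k : ℝ) * φ k
      = (s : ℝ) ^ 2 * (∑ n ∈ range h, w n * ((h : ℝ) - n) * φ n)
        + ∑ n ∈ range N, (r n : ℝ) * (φ (n + 1) - φ 0) := by
    intro φ
    obtain ⟨h', rfl⟩ : ∃ h', h = h' + 1 := ⟨h - 1, by omega⟩
    have hNh : N ≤ h' := by omega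
    rw [sum_congr rfl fun k hk => by rw [hcast k (mem_range.mp hk)]]
    rw [sum_range_succ', sum_range_succ' (fun n => w n * (((h' + 1 : ℕ) : ℝ) - n) * φ n)]
    have e1 : ∑ k ∈ range h', ((cz (k + 1) : ℤ) : ℝ) * φ (k + 1)
        = ∑ k ∈ range h', (s : ℝ) ^ 2 * (w (k + 1) * (((h' + 1 : ℕ) : ℝ) - ((k + 1 : ℕ) : ℝ)) * φ (k + 1))
          + ∑ k ∈ range N, (r k : ℝ) * φ (k + 1) := by
      have e2 : ∑ k ∈ range N, (r k : ℝ) * φ (k + 1)
          = ∑ k ∈ range h', (if k < N then (r k : ℝ) * φ (k + 1) else 0) := by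
        rw [← sum_filter]
        apply sum_congr _ fun _ _ => rfl
        ext k
        simp only [mem_range, mem_filter]
        omega
      rw [e2, ← sum_add_distrib]
      apply sum_congr rfl
      intro k _
      simp only [hcz, w_succ]
      push_cast
      by_cases hkN : k < N
      · simp only [if_pos hkN]
        ring
      · simp only [if_neg hkN]
        push_cast
        ring
    rw [e1, ← mul_sum]
    have e3 : ∑ n ∈ range N, (r n : ℝ) * (φ (n + 1) - φ 0)
        = ∑ n ∈ range N, (r n : ℝ) * φ (n + 1) - (∑ n ∈ range N, (r n : ℝ)) * φ 0 := by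
      rw [sum_mul, ← sum_sub_distrib]
      apply sum_congr rfl
      intro n _
      ring
    rw [e3]
    simp only [hcz, w_zero]
    push_cast
    ring
  have hcard : ∑ k ∈ range h, c k = (s * h) ^ 2 := by
    have h1 := hformula (fun _ => 1)
    simp only [mul_one, sub_self, mul_zero, sum_const_zero, add_zero] at h1
    rw [sum_w] at h1
    have : ((∑ k ∈ range h, c k : ℕ) : ℝ) = (((s * h) ^ 2 : ℕ) : ℝ) := by
      push_cast
      rw [h1]
      ring
    exact_mod_cast this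
  obtain ⟨β, hβ⟩ := exists_list h _ c hcard
  refine ⟨β, r, hr1, fun θ => ?_⟩
  have h1 := hβ (fun n => cos ((n : ℝ) * θ))
  have h2 := hformula (fun n => cos ((n : ℝ) * θ))
  rw [h1, h2]
  simp

/-- MULTISET LEMMA (finitely many functions simultaneously). -/
theorem multi {ι : Type*} [Fintype ι] (z : ι → ℝ → ℝ) (hc : ∀ i, Continuous (z i))
    (he : ∀ i x, z i (-x) = z i x) (hp : ∀ i x, z i (x + 1) = z i x)
    (δ ε : ℝ) (hδ : 0 < δ) (hε : 0 < ε) (D : ℕ) :
    ∃ d : ℕ, D ≤ d ∧ 1 ≤ d ∧ ∃ β : ι → Fin d → ℕ, ∀ i x, δ ≤ |sin (2 * π * x)| →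
      |(√(d : ℝ))⁻¹ * ∑ j, cos (2 * π * (β i j : ℝ) * x) - z i x| ≤ ε ∧
      |(d : ℝ)⁻¹ * ∑ j, cos (2 * π * (β i j : ℝ) * x) ^ 2 - 1 / 2| ≤ ε := by
  -- cut off near the zeros of the sine
  set χ : ℝ → ℝ := fun x => min 1 (|sin (2 * π * x)| / δ) with hχ
  have hχc : Continuous χ := by
    apply continuous_const.min
    apply Continuous.div_const
    apply Continuous.abs
    exact continuous_sin.comp (continuous_const.mul continuous_id)
  have hχe : ∀ x, χ (-x) = χ x := by
    intro x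
    simp only [hχ]
    rw [mul_neg, sin_neg, abs_neg]
  have hχp : ∀ x, χ (x + 1) = χ x := by
    intro x
    simp only [hχ]
    rw [mul_add, mul_one, sin_add_two_pi]
  have hχ0 : χ 0 = 0 := by simp [hχ]
  have hχ1 : ∀ x, δ ≤ |sin (2 * π * x)| → χ x = 1 := by
    intro x hx
    simp only [hχ]
    apply min_eq_left
    rw [le_div_iff₀ hδ]
    linarith
  have happ : ∀ i, ∃ (N : ℕ) (a : ℕ → ℝ), (∀ n, N ≤ n → a n = 0) ∧
      ∀ x, |∑ n ∈ range N, a n * (cos (((n + 1 : ℕ) : ℝ) * (2 * π * x)) - 1) - z i x * χ x|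
        ≤ ε / 2 := by
    intro i
    apply exists_approx (fun x => z i x * χ x) ((hc i).mul hχc) _ _ _ (ε / 2) (by positivity)
    · intro x
      simp only [he, hχe]
    · intro x
      simp only [hp, hχp]
    · simp only [hχ0, mul_zero]
  choose N a ha happ using happ
  -- common length
  set M : ℕ := Finset.univ.sup N with hM
  have hNM : ∀ i, N i ≤ M := fun i => Finset.le_sup (Finset.mem_univ i)
  have happM : ∀ i x, |∑ n ∈ range M, a i n * (cos (((n + 1 : ℕ) : ℝ) * (2 * π * x)) - 1)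
      - z i x * χ x| ≤ ε / 2 := by
    intro i x
    have e : ∑ n ∈ range M, a i n * (cos (((n + 1 : ℕ) : ℝ) * (2 * π * x)) - 1)
        = ∑ n ∈ range (N i), a i n * (cos (((n + 1 : ℕ) : ℝ) * (2 * π * x)) - 1) := by
      symm
      apply sum_subset (range_mono (hNM i))
      intro n _ hn
      rw [ha i n (by simpa using hn), zero_mul]
    rw [e]
    exact happ i x
  set A : ℝ := ∑ i, ∑ n ∈ range M, |a i n| with hA
  have hA0 : 0 ≤ A := sum_nonneg fun i _ => sum_nonneg fun n _ => abs_nonneg _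
  have hAi : ∀ i, ∑ n ∈ range M, |a i n| ≤ A := by
    intro i
    exact single_le_sum (f := fun i => ∑ n ∈ range M, |a i n|)
      (fun i _ => sum_nonneg fun n _ => abs_nonneg _) (Finset.mem_univ i)
  obtain ⟨s, hs⟩ := exists_nat_ge (A + 1)
  have hs1 : (1 : ℝ) ≤ s := by linarith
  have hs0 : (0 : ℝ) < s := by linarith
  -- the height
  set B : ℝ := 4 * s / δ ^ 2 + 2 * M + 1 / (2 * δ ^ 2) + A + M with hB
  obtain ⟨h, hh⟩ := exists_nat_ge (2 * B / ε + M + 1 + 2 * M + D + 1)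
  have hB0 : 0 ≤ B := by positivity
  have hM0 : (0 : ℝ) ≤ M := Nat.cast_nonneg _
  have hD0 : (0 : ℝ) ≤ D := Nat.cast_nonneg _
  have hBe : 0 ≤ 2 * B / ε := by positivity
  have hh1 : (1 : ℝ) ≤ h := by linarith
  have hh0 : (0 : ℝ) < h := by linarith
  have hhN : M + 1 ≤ h := by
    have : ((M + 1 : ℕ) : ℝ) ≤ h := by push_cast; linarith
    exact_mod_cast this
  have hh2N : 2 * M ≤ h := by
    have : ((2 * M : ℕ) : ℝ) ≤ h := by push_cast; linarith
    exact_mod_cast this
  have hhD : D ≤ h := by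
    have : ((D : ℕ) : ℝ) ≤ h := by linarith
    exact_mod_cast this
  have hMs : (M : ℝ) + 1 ≤ (h : ℝ) * s := by
    have h1 : (M : ℝ) + 1 ≤ h := by exact_mod_cast hhN
    nlinarith
  have hBh : B / h ≤ ε / 2 := by
    rw [div_le_iff₀ hh0]
    have h1 : 2 * B / ε ≤ h := by linarith
    rw [div_le_iff₀ hε] at h1
    linarith
  choose β r hr1 hβ using fun i => multi_coeff M s h (a i) A (hAi i) hs hhN hh2N hMs
  have hsN : 1 ≤ s := by exact_mod_cast hs1
  have hsh : h ≤ s * h := Nat.le_mul_of_pos_left h hsN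
  have hhNat : 1 ≤ h := by exact_mod_cast hh1
  have hdh : h ≤ (s * h) ^ 2 := by
    calc h ≤ s * h := hsh
      _ ≤ (s * h) ^ 2 := Nat.le_self_pow (by norm_num) _
  refine ⟨(s * h) ^ 2, le_trans hhD hdh, le_trans hhNat hdh, β, fun i x hx => ?_⟩
  have hshpos : (0 : ℝ) < (s : ℝ) * h := by positivity
  have hcast : (((s * h) ^ 2 : ℕ) : ℝ) = ((s : ℝ) * h) ^ 2 := by push_cast; ring
  have hsq : √((((s * h) ^ 2 : ℕ) : ℝ)) = (s : ℝ) * h := by
    rw [hcast]
    exact Real.sqrt_sq hshpos.le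
  have hrabs : ∀ n, |(r i n : ℝ)| ≤ h * s * |a i n| + 1 := by
    intro n
    have h1 := hr1 i n
    have h2 : |(r i n : ℝ)| ≤ |(r i n : ℝ) - h * s * a i n| + |(h : ℝ) * s * a i n| := by
      have := abs_add_le ((r i n : ℝ) - h * s * a i n) (h * s * a i n)
      simpa using this
    rw [abs_mul, abs_of_nonneg (by positivity : (0 : ℝ) ≤ (h : ℝ) * s)] at h2
    linarith
  have hcosm : ∀ t : ℝ, |cos t - 1| ≤ 2 := by
    intro t
    have := cos_le_one t
    have := neg_one_le_cos t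
    rw [abs_le]
    constructor <;> linarith
  constructor
  · -- first estimate
    have hre : ∑ j, cos (2 * π * (β i j : ℝ) * x) = ∑ j, cos ((β i j : ℝ) * (2 * π * x)) := by
      apply sum_congr rfl
      intro j _
      congr 1
      ring
    rw [hsq, hre, hβ i (2 * π * x)]
    set K := ∑ n ∈ range h, w n * ((h : ℝ) - n) * cos ((n : ℝ) * (2 * π * x)) with hK
    have hKb : |K| ≤ 2 / (δ ^ 2 / 2) :=
      fejer_bound _ _ (by positivity) h (one_sub_cos_ge hδ hx)
    have happ1 := happM i x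
    rw [hχ1 x hx, mul_one] at happ1
    set P := ∑ n ∈ range M, a i n * (cos (((n + 1 : ℕ) : ℝ) * (2 * π * x)) - 1) with hP
    have hdiff : |((s : ℝ) * h)⁻¹ * ∑ n ∈ range M, (r i n : ℝ) * (cos (((n + 1 : ℕ) : ℝ) * (2 * π * x)) - 1)
        - P| ≤ 2 * M / h := by
      have e : ((s : ℝ) * h)⁻¹ * ∑ n ∈ range M, (r i n : ℝ) * (cos (((n + 1 : ℕ) : ℝ) * (2 * π * x)) - 1)
          - P = ((s : ℝ) * h)⁻¹ * ∑ n ∈ range M, ((r i n : ℝ) - h * s * a i n)
            * (cos (((n + 1 : ℕ) : ℝ) * (2 * π * x)) - 1) := by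
        have e2 : P = ((s : ℝ) * h)⁻¹ * ∑ n ∈ range M, (h * s * a i n)
            * (cos (((n + 1 : ℕ) : ℝ) * (2 * π * x)) - 1) := by
          rw [hP, mul_sum]
          apply sum_congr rfl
          intro n _
          field_simp
        rw [e2, ← mul_sub, ← sum_sub_distrib]
        congr 1
        apply sum_congr rfl
        intro n _
        ring
      rw [e, abs_mul, abs_of_pos (inv_pos.mpr hshpos)]
      have h1 : |∑ n ∈ range M, ((r i n : ℝ) - h * s * a i n)
            * (cos (((n + 1 : ℕ) : ℝ) * (2 * π * x)) - 1)| ≤ 2 * M := by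
        calc _ ≤ ∑ n ∈ range M, |((r i n : ℝ) - h * s * a i n)
            * (cos (((n + 1 : ℕ) : ℝ) * (2 * π * x)) - 1)| := abs_sum_le_sum_abs _ _
          _ ≤ ∑ n ∈ range M, (2 : ℝ) := by
              apply sum_le_sum
              intro n _
              rw [abs_mul]
              have := hr1 i n
              have := hcosm (((n + 1 : ℕ) : ℝ) * (2 * π * x))
              have := abs_nonneg ((r i n : ℝ) - h * s * a i n)
              nlinarith [abs_nonneg (cos (((n + 1 : ℕ) : ℝ) * (2 * π * x)) - 1)]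
          _ = 2 * M := by simp; ring
      calc ((s : ℝ) * h)⁻¹ * _ ≤ ((s : ℝ) * h)⁻¹ * (2 * M) :=
            mul_le_mul_of_nonneg_left h1 (inv_pos.mpr hshpos).le
        _ ≤ (h : ℝ)⁻¹ * (2 * M) := by
            apply mul_le_mul_of_nonneg_right _ (by positivity)
            apply inv_anti₀ hh0
            nlinarith
        _ = 2 * M / h := by ring
    have hKterm : |((s : ℝ) * h)⁻¹ * ((s : ℝ) ^ 2 * K)| ≤ (4 * s / δ ^ 2) / h := by
      rw [abs_mul, abs_of_pos (inv_pos.mpr hshpos), abs_mul, abs_of_nonneg (sq_nonneg (s : ℝ))]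
      have h1 : (s : ℝ) ^ 2 * |K| ≤ (s : ℝ) ^ 2 * (4 / δ ^ 2) := by
        apply mul_le_mul_of_nonneg_left _ (sq_nonneg _)
        have e : (2 : ℝ) / (δ ^ 2 / 2) = 4 / δ ^ 2 := by field_simp; norm_num
        linarith
      calc ((s : ℝ) * h)⁻¹ * ((s : ℝ) ^ 2 * |K|) ≤ ((s : ℝ) * h)⁻¹ * ((s : ℝ) ^ 2 * (4 / δ ^ 2)) :=
            mul_le_mul_of_nonneg_left h1 (inv_pos.mpr hshpos).le
        _ = (4 * s / δ ^ 2) / h := by field_simp
    have htot : (4 * s / δ ^ 2) / h + 2 * M / h ≤ B / h := by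
      rw [← add_div]
      apply div_le_div_of_nonneg_right _ hh0.le
      rw [hB]
      have : 0 ≤ 1 / (2 * δ ^ 2) := by positivity
      linarith
    rw [mul_add]
    set U := ((s : ℝ) * h)⁻¹ * ((s : ℝ) ^ 2 * K) with hU
    set V := ((s : ℝ) * h)⁻¹ * ∑ n ∈ range M, (r i n : ℝ) * (cos (((n + 1 : ℕ) : ℝ) * (2 * π * x)) - 1) with hV
    rw [abs_le] at hKterm hdiff happ1 ⊢
    constructor <;> linarith [hKterm.1, hKterm.2, hdiff.1, hdiff.2, happ1.1, happ1.2]
  · -- second estimate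
    have hre : ∑ j, cos (2 * π * (β i j : ℝ) * x) ^ 2
        = (((s * h) ^ 2 : ℕ) : ℝ) / 2 + (1 / 2) * ∑ j, cos ((β i j : ℝ) * (2 * (2 * π * x))) := by
      have e : ∀ j, cos (2 * π * (β i j : ℝ) * x) ^ 2
          = 1 / 2 + (1 / 2) * cos ((β i j : ℝ) * (2 * (2 * π * x))) := by
        intro j
        rw [cos_sq]
        have : 2 * (2 * π * (β i j : ℝ) * x) = (β i j : ℝ) * (2 * (2 * π * x)) := by ring
        rw [this]
        ring
      rw [sum_congr rfl fun j _ => e j, sum_add_distrib, ← mul_sum]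
      simp
      ring
    rw [hre, hβ i (2 * (2 * π * x)), hcast]
    set K := ∑ n ∈ range h, w n * ((h : ℝ) - n) * cos ((n : ℝ) * (2 * (2 * π * x))) with hK
    have hKb : |K| ≤ 2 / (2 * δ ^ 2) :=
      fejer_bound _ _ (by positivity) h (one_sub_cos_two_ge hδ hx)
    set R := ∑ n ∈ range M, (r i n : ℝ) * (cos (((n + 1 : ℕ) : ℝ) * (2 * (2 * π * x))) - 1) with hR
    have hRb : |R| ≤ 2 * (h * s * A + M) := by
      calc |R| ≤ ∑ n ∈ range M, |(r i n : ℝ) * (cos (((n + 1 : ℕ) : ℝ) * (2 * (2 * π * x))) - 1)| :=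
            abs_sum_le_sum_abs _ _
        _ ≤ ∑ n ∈ range M, 2 * (h * s * |a i n| + 1) := by
            apply sum_le_sum
            intro n _
            rw [abs_mul]
            have h1 := hrabs n
            have h2 := hcosm (((n + 1 : ℕ) : ℝ) * (2 * (2 * π * x)))
            have h3 := abs_nonneg (r i n : ℝ)
            have h4 := abs_nonneg (cos (((n + 1 : ℕ) : ℝ) * (2 * (2 * π * x))) - 1)
            nlinarith
        _ = 2 * (h * s * ∑ n ∈ range M, |a i n| + M) := by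
            rw [← mul_sum, sum_add_distrib, ← mul_sum]
            simp
        _ ≤ 2 * (h * s * A + M) := by
            have := mul_le_mul_of_nonneg_left (hAi i) (by positivity : (0 : ℝ) ≤ (h : ℝ) * s)
            linarith
    have e : (((s : ℝ) * h) ^ 2)⁻¹ * (((s : ℝ) * h) ^ 2 / 2 + 1 / 2 * ((s : ℝ) ^ 2 * K + R)) - 1 / 2
        = (((s : ℝ) * h) ^ 2)⁻¹ * (1 / 2 * ((s : ℝ) ^ 2 * K + R)) := by
      field_simp
      ring
    rw [e, abs_mul, abs_of_pos (by positivity : (0 : ℝ) < (((s : ℝ) * h) ^ 2)⁻¹)]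
    have h1 : |1 / 2 * ((s : ℝ) ^ 2 * K + R)| ≤ 1 / 2 * ((s : ℝ) ^ 2 * (1 / δ ^ 2) + 2 * (h * s * A + M)) := by
      rw [abs_mul, abs_of_pos (by norm_num : (0 : ℝ) < 1 / 2)]
      apply mul_le_mul_of_nonneg_left _ (by norm_num)
      calc |(s : ℝ) ^ 2 * K + R| ≤ |(s : ℝ) ^ 2 * K| + |R| := abs_add_le _ _
        _ ≤ (s : ℝ) ^ 2 * (1 / δ ^ 2) + 2 * (h * s * A + M) := by
            apply add_le_add _ hRb
            rw [abs_mul, abs_of_nonneg (sq_nonneg (s : ℝ))]
            apply mul_le_mul_of_nonneg_left _ (sq_nonneg _)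
            have e2 : (2 : ℝ) / (2 * δ ^ 2) = 1 / δ ^ 2 := by field_simp
            linarith
    calc (((s : ℝ) * h) ^ 2)⁻¹ * |1 / 2 * ((s : ℝ) ^ 2 * K + R)|
        ≤ (((s : ℝ) * h) ^ 2)⁻¹ * (1 / 2 * ((s : ℝ) ^ 2 * (1 / δ ^ 2) + 2 * (h * s * A + M))) :=
          mul_le_mul_of_nonneg_left h1 (by positivity)
      _ = (1 / (2 * δ ^ 2)) / (h ^ 2) + A / (s * h) + M / (s * h) ^ 2 := by
          field_simp
          ring
      _ ≤ (1 / (2 * δ ^ 2)) / h + A / h + M / h := by
          have hq1 : (h : ℝ) ≤ h ^ 2 := by nlinarith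
          have hq2 : (h : ℝ) ≤ s * h := by nlinarith
          have hq3 : (h : ℝ) ≤ (s * h) ^ 2 := by nlinarith
          have t1 : (1 / (2 * δ ^ 2)) / ((h : ℝ) ^ 2) ≤ (1 / (2 * δ ^ 2)) / h :=
            div_le_div_of_nonneg_left (by positivity) hh0 hq1
          have t2 : A / ((s : ℝ) * h) ≤ A / h := div_le_div_of_nonneg_left hA0 hh0 hq2
          have t3 : (M : ℝ) / ((s : ℝ) * h) ^ 2 ≤ M / h := div_le_div_of_nonneg_left hM0 hh0 hq3
          linarith
      _ ≤ B / h := by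
          rw [← add_div, ← add_div]
          apply div_le_div_of_nonneg_right _ hh0.le
          rw [hB]
          have : 0 ≤ 4 * s / δ ^ 2 := by positivity
          linarith
      _ ≤ ε := by linarith

end H844BU
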